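import Pool.Agent.HTn.Defn2

namespace Pool.Agent.Results.MP_04d881_lc.UniformLevel

/-- A single level K of the arithmetical hierarchy bounds solutions of the exactly-n-term
Hindman principle for all n at once. -/
theorem result : ∃ K : ℕ, ∀ n : ℕ, 1 ≤ n → ∀ c : ℕ → Fin 2, Computable c →
    ∃ H : Set ℕ, H.Infinite ∧ (∀ x ∈ H, 1 ≤ x) ∧
      (∃ i : Fin 2, ∀ F : Finset ℕ, (↑F : Set ℕ) ⊆ H → F.card = n → c (∑ x ∈ F, x) = i) ∧
      ∃ R : List ℕ → Prop, ComputablePred R ∧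
        ∀ x : ℕ, x ∈ H ↔
          Nat.rec (motive := fun _ => List ℕ → Prop) R
            (fun _ T l => ∃ y : ℕ, ¬ T (y :: l)) K [x] := by
  obtain ⟨K, hK⟩ := Pool.Agent.HTn.DA_Hset
  refine ⟨2 * K, ?_⟩
  intro n hn c hc
  obtain ⟨i, hi⟩ := Pool.Agent.HTn.PS_start n hn (Pool.Agent.HTn.yy n c)
  have hy := Pool.Agent.HTn.UR_yy n c
  have hip := Pool.Agent.HTn.IP0_yy n c
  refine ⟨Pool.Agent.HTn.Hset n i c (Pool.Agent.HTn.yy n c),
    Pool.Agent.HTn.Hset_infinite hy hip hi, ?_,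
    ⟨i, fun F hF hcard => Pool.Agent.HTn.Hset_homog hn hy hip hi F hF hcard⟩, ?_⟩
  · rintro x ⟨s, hs⟩
    induction s with
    | zero => simp [Pool.Agent.HTn.Fseq] at hs
    | succ s ih =>
      obtain ⟨_, h, hh, he⟩ := Pool.Agent.HTn.Fseq_spec hy hip hi s
      rw [he] at hs
      rcases List.mem_cons.1 hs with rfl | hs
      · exact hh.1
      · exact ih hs
  · obtain ⟨Q, hQ, h⟩ := hK ⟨n, i, c, hc⟩
    obtain ⟨R, hR, h'⟩ := Pool.Agent.HTn.Sig_final hQ (le_refl (2 * K))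
    refine ⟨R, hR, fun x => ?_⟩
    have h1 := h x
    simp only at h1
    rw [h1]
    exact h' x

end Pool.Agent.Results.MP_04d881_lc.UniformLevel
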